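import Mathlib
import Pool.Agent.Helper549.SFComplete

set_option autoImplicit false

namespace Pool.Agent.Results.MP_c3b97e_co.CyclicExact

/-- The `h`-fold sumset `hA = {a₁ + ⋯ + a_h : a_i ∈ A}` (repetitions allowed), with `0A = {0}`. -/
def fold {G : Type*} [AddCommGroup G] (A : Set G) : ℕ → Set G
  | 0 => {0}
  | h + 1 => {x | ∃ a ∈ A, ∃ y ∈ fold A h, x = a + y}

/-- `A` is `H`-sum-free: `h₁A` and `h₂A` are disjoint for all distinct `h₁, h₂` in `H`. -/
def SumFree {G : Type*} [AddCommGroup G] (H : Set ℕ) (A : Set G) : Prop :=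
  ∀ h₁ ∈ H, ∀ h₂ ∈ H, h₁ ≠ h₂ → Disjoint (fold A h₁) (fold A h₂)

/-- `μ(G,H)`: the largest size of an `H`-sum-free subset of `G`. -/
noncomputable def mu (G : Type*) [AddCommGroup G] (H : Set ℕ) : ℕ :=
  sSup {m : ℕ | ∃ A : Finset G, SumFree H (A : Set G) ∧ A.card = m}

open Classical in
/-- `v₂(n,4)`: it is `(1 + 1/p) n/4` if `n` has a prime divisor congruent to `3` modulo `4` and `p`
is the smallest one, and `⌊n/4⌋` otherwise. -/
noncomputable def v2 (n : ℕ) : ℚ :=
  if h : ∃ p : ℕ, p.Prime ∧ p % 4 = 3 ∧ p ∣ n then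
    (1 + 1 / (Nat.find h : ℚ)) * ((n : ℚ) / 4)
  else ((n / 4 : ℕ) : ℚ)

theorem fold_one {G : Type*} [AddCommGroup G] (A : Set G) : fold A 1 = A := by
  ext x
  simp [fold]

theorem fold_two {G : Type*} [AddCommGroup G] (A : Set G) (x : G) :
    x ∈ fold A 2 ↔ ∃ a ∈ A, ∃ b ∈ A, x = a + b := by
  constructor
  · rintro ⟨a, ha, y, hy, rfl⟩
    exact ⟨a, ha, y, by rw [← fold_one A]; exact hy, rfl⟩
  · rintro ⟨a, ha, b, hb, rfl⟩
    exact ⟨a, ha, b, by rw [fold_one]; exact hb, rfl⟩

theorem sumFree_iff {G : Type*} [AddCommGroup G] (A : Finset G) :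
    SumFree (Set.Icc 0 2) (A : Set G) ↔ Helper549.SF A := by
  constructor
  · intro h
    have h01 := h 0 (by simp) 1 (by simp) (by norm_num)
    have h02 := h 0 (by simp) 2 (by simp) (by norm_num)
    have h12 := h 1 (by simp) 2 (by simp) (by norm_num)
    rw [Set.disjoint_left] at h01 h02 h12
    refine ⟨?_, ?_, ?_⟩
    · intro h0
      exact h01 (a := 0) (by simp [fold]) (by rw [fold_one]; exact h0)
    · intro a ha b hb hab
      exact h02 (a := 0) (by simp [fold]) ((fold_two _ _).2 ⟨a, ha, b, hb, hab.symm⟩)
    · intro a ha b hb hab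
      exact h12 (a := a + b) (by rw [fold_one]; exact hab) ((fold_two _ _).2 ⟨a, ha, b, hb, rfl⟩)
  · rintro ⟨h1, h2, h3⟩
    have k01 : Disjoint (fold (A : Set G) 0) (fold (A : Set G) 1) := by
      rw [Set.disjoint_left]
      intro x hx hx1
      rw [fold_one] at hx1
      have : x = 0 := hx
      subst this
      exact h1 hx1
    have k02 : Disjoint (fold (A : Set G) 0) (fold (A : Set G) 2) := by
      rw [Set.disjoint_left]
      intro x hx hx1
      obtain ⟨a, ha, b, hb, hab⟩ := (fold_two _ _).1 hx1
      have : x = 0 := hx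
      subst this
      exact h2 a ha b hb hab.symm
    have k12 : Disjoint (fold (A : Set G) 1) (fold (A : Set G) 2) := by
      rw [Set.disjoint_left]
      intro x hx hx1
      rw [fold_one] at hx
      obtain ⟨a, ha, b, hb, hab⟩ := (fold_two _ _).1 hx1
      subst hab
      exact h3 a ha b hb hx
    intro i hi j hj hij
    have hi2 := hi.2
    have hj2 := hj.2
    interval_cases i <;> interval_cases j <;> first | exact absurd rfl hij | assumption |
      exact Disjoint.symm (by assumption)

theorem mu_eq (n : ℕ) [NeZero n] : mu (ZMod n) (Set.Icc 0 2) = Helper549.mu (ZMod n) := by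
  unfold mu Helper549.mu
  simp only [sumFree_iff]

/-- The conjecture: `μ(ℤ_n,[0,2]) = v₂(n,4)` for every positive integer `n`. -/
theorem result (n : ℕ) (hn : 0 < n) : (mu (ZMod n) (Set.Icc 0 2) : ℚ) = v2 n := by
  have : NeZero n := ⟨hn.ne'⟩
  rw [mu_eq]
  have hcard : Fintype.card (ZMod n) = n := ZMod.card n
  have hexp : AddMonoid.exponent (ZMod n) = n := ZMod.exponent n
  unfold v2
  split_ifs with h
  · have hp := Nat.find_spec h
    have hmin : ∀ q, q.Prime → q % 4 = 3 → q ∣ Fintype.card (ZMod n) → Nat.find h ≤ q := by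
      intro q hq hq3 hqn
      rw [hcard] at hqn
      exact Nat.find_min' h ⟨hq, hq3, hqn⟩
    have key := Helper549.mu_three (G := ZMod n) (Nat.find h) hp.1 hp.2.1
      (by rw [hcard]; exact hp.2.2) hmin
    rw [hcard] at key
    have hp0 : (Nat.find h : ℚ) ≠ 0 := by exact_mod_cast hp.1.ne_zero
    have keyQ : 4 * (Nat.find h : ℚ) * (Helper549.mu (ZMod n) : ℚ)
        = ((Nat.find h : ℚ) + 1) * n := by exact_mod_cast key
    field_simp
    linarith
  · have hno : ∀ q, q.Prime → q ∣ Fintype.card (ZMod n) → q % 4 ≠ 3 := by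
      intro q hq hqn hq3
      rw [hcard] at hqn
      exact h ⟨q, hq, hq3, hqn⟩
    norm_cast
    have h4 : n % 4 = 0 ∨ n % 4 = 2 ∨ n % 2 = 1 := by omega
    rcases h4 with h4 | h4 | h4
    · have key := Helper549.mu_four (G := ZMod n) hno (by rw [hexp]; omega)
      rw [hcard] at key
      omega
    · have key := Helper549.mu_upper (G := ZMod n) hno
      have key2 := Helper549.mu_two (G := ZMod n) hno (by rw [hexp]; omega)
      rw [hcard] at key key2
      -- the number of `x` with `2x = 0` is at most two
      have hc : (Finset.univ.filter (fun x : ZMod n => x + x = 0)).card ≤ 2 := by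
        have hsub : (Finset.univ.filter (fun x : ZMod n => x + x = 0))
            ⊆ ({0, ((n / 2 : ℕ) : ZMod n)} : Finset (ZMod n)) := by
          intro x hx
          rw [Finset.mem_filter] at hx
          have hx2 := hx.2
          rw [← ZMod.natCast_zmod_val x] at hx2
          have h1 : ((x.val + x.val : ℕ) : ZMod n) = 0 := by push_cast; exact hx2
          rw [ZMod.natCast_eq_zero_iff] at h1
          have hlt := ZMod.val_lt x
          obtain ⟨c, hc⟩ := h1
          have hc2 : c < 2 := by
            by_contra hcon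
            have : n * 2 ≤ n * c := Nat.mul_le_mul_left _ (by omega)
            omega
          rw [Finset.mem_insert, Finset.mem_singleton]
          interval_cases c
          · left
            have : x.val = 0 := by omega
            exact (ZMod.val_eq_zero x).1 this
          · right
            have : x.val = n / 2 := by omega
            rw [← this, ZMod.natCast_zmod_val]
        calc _ ≤ _ := Finset.card_le_card hsub
          _ ≤ 2 := Finset.card_le_two
      omega
    · have key := Helper549.mu_odd_exact (G := ZMod n) hno (by rw [hexp]; exact h4)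
      rw [hexp, hcard] at key
      have hn4 : n % 4 = 1 := by
        have := Helper549.odd_dvd_mod (G := ZMod n) hno n (by rw [hcard]) h4
        exact this
      have h5 : 4 * Helper549.mu (ZMod n) * n = (n - 1) * n := by
        calc 4 * Helper549.mu (ZMod n) * n = 4 * n * Helper549.mu (ZMod n) := by ring
          _ = (n - 1) * n := key
      have h6 := Nat.eq_of_mul_eq_mul_right hn h5
      omega

end Pool.Agent.Results.MP_c3b97e_co.CyclicExact
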